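import Pool.Agent.R644.K3

/-!
# A countable torsion-free metrizably-ended group without finite Kurosh rank

The group is Kurosh's group `⟨a n, b n | a (n+1) * b n * (a (n+1))⁻¹ * (b n)⁻¹ = a n⟩`.
An almost invariant set `B` with `B * a 0 = B` is empty or everything, so that an almost invariant
set `A` is determined by the finite set `A ∆ (A * a 0)` and by whether it contains `1`.
-/

set_option autoImplicit false

namespace Pool.Agent.Results.MP_879d44_al.KuroshGroupMetrizableEnds

section
variable (G : Type) [Group G]

/-- The Boolean algebra `P_G(G)` of the subsets `A` of `G` such that `A ∆ A g` is finite for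
every `g` in `G`. -/
def AlmostInvariant : BooleanSubalgebra (Set G) where
  carrier := {A | ∀ g : G, (symmDiff A ((fun x => x * g) '' A)).Finite}
  supClosed' := by
    intro A hA B hB g
    apply ((hA g).union (hB g)).subset
    intro z hz
    change z ∈ symmDiff (A ∪ B) ((fun x => x * g) '' (A ∪ B)) at hz
    rw [Set.image_union] at hz
    simp only [Set.mem_symmDiff, Set.mem_union] at hz ⊢
    tauto
  infClosed' := by
    intro A hA B hB g
    apply ((hA g).union (hB g)).subset
    intro z hz
    change z ∈ symmDiff (A ∩ B) ((fun x => x * g) '' (A ∩ B)) at hz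
    rw [Set.image_inter (mul_left_injective g)] at hz
    simp only [Set.mem_symmDiff, Set.mem_union, Set.mem_inter_iff] at hz ⊢
    tauto
  compl_mem' := by
    intro A hA g
    have h : (fun x => x * g) '' Aᶜ = ((fun x => x * g) '' A)ᶜ :=
      Set.image_compl_eq (Group.mulRight_bijective g)
    rw [h, compl_symmDiff_compl]
    exact hA g
  bot_mem' := by
    intro g
    simp

/-- The space of ends of `G`: the Stone space of the quotient of `P_G(G)` by the ideal of the
finite subsets of `G`. A point is a homomorphism of Boolean algebras from `P_G(G)` to `{0, 1}`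
which vanishes on this ideal. -/
def Ends : Type :=
  {φ : BoundedLatticeHom (AlmostInvariant G) Bool //
    ∀ A : AlmostInvariant G, (A : Set G).Finite → φ A = false}

/-- The topology of pointwise convergence on the space of ends. -/
noncomputable instance : TopologicalSpace (Ends G) :=
  TopologicalSpace.induced (fun (φ : Ends G) (A : AlmostInvariant G) => φ.1 A) inferInstance

/-- `G` is metrizably-ended if its space of ends is metrizable. -/
def MetrizablyEnded : Prop := TopologicalSpace.MetrizableSpace (Ends G)

/-- `G` is torsion-free. -/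
def TorsionFree : Prop := ∀ g : G, g ≠ 1 → ∀ n : ℕ, n ≠ 0 → g ^ n ≠ 1

/-- `G` is nontrivial and is not a free product of two nontrivial groups. -/
def FreelyIndecomposable : Prop :=
  Nontrivial G ∧ ∀ (A B : Type) [Group A] [Group B], Nonempty (G ≃* Monoid.Coprod A B) →
    Subsingleton A ∨ Subsingleton B

/-- `G` is isomorphic to the free product of finitely many freely indecomposable groups. -/
def FiniteKuroshRank : Prop :=
  ∃ (n : ℕ) (K : Fin n → Type) (_ : ∀ i, Group (K i)),
    (∀ i, FreelyIndecomposable (K i)) ∧ Nonempty (G ≃* Monoid.CoprodI K)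

end

theorem mem_iff {G : Type} [Group G] (A : Set G) (g z : G) :
    z ∈ symmDiff A ((fun x => x * g) '' A) ↔ ¬ (z ∈ A ↔ z * g⁻¹ ∈ A) := by
  have : z ∈ (fun x => x * g) '' A ↔ z * g⁻¹ ∈ A := by
    constructor
    · rintro ⟨x, hx, rfl⟩; simpa using hx
    · intro h; exact ⟨_, h, by simp⟩
  rw [Set.mem_symmDiff, this]
  tauto

open Pool.Agent.R644.K in
theorem countable_almostInvariant : Countable (AlmostInvariant Γ) := by
  classical
  have hinj : Function.Injective (fun A : AlmostInvariant Γ =>
      ((A.2 (a 0)).toFinset, decide ((1 : Γ) ∈ (A : Set Γ)))) := by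
    intro A B hAB
    simp only [Prod.mk.injEq, Set.Finite.toFinset_inj, decide_eq_decide] at hAB
    obtain ⟨h1, h2⟩ := hAB
    apply Subtype.ext
    -- the indicator function of the symmetric difference
    have h3 := const_of (chi (symmDiff (A : Set Γ) (B : Set Γ))) (by
      intro g
      apply ((A.2 g⁻¹).union (B.2 g⁻¹)).subset
      intro z hz
      rw [Set.mem_ofPred_eq, Ne, chi_eq] at hz
      rw [Set.mem_union, mem_iff, mem_iff, inv_inv]
      simp only [Set.mem_symmDiff] at hz
      tauto) (by
      intro z
      rw [chi_eq]
      have h4 := congrArg (fun S : Set Γ => (z * a 0) ∈ S) h1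
      beta_reduce at h4
      rw [mem_iff, mem_iff, mul_inv_cancel_right, eq_iff_iff] at h4
      simp only [Set.mem_symmDiff]
      tauto)
    ext z
    have h4 := h3 z
    rw [chi_eq] at h4
    simp only [Set.mem_symmDiff] at h4
    tauto
  exact hinj.countable

theorem metrizable_of_countable (G : Type) [Group G] (h : Countable (AlmostInvariant G)) :
    MetrizablyEnded G := by
  have h1 : Topology.IsEmbedding (fun (φ : Ends G) (A : AlmostInvariant G) => φ.1 A) := by
    refine ⟨⟨rfl⟩, ?_⟩
    intro φ ψ hφψ
    apply Subtype.ext
    exact DFunLike.coe_injective hφψ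
  have h2 : TopologicalSpace.MetrizableSpace (AlmostInvariant G → Bool) :=
    TopologicalSpace.metrizableSpace_of_t3_secondCountable _
  exact h1.metrizableSpace

/-- There is a countable torsion-free metrizably-ended group which is not of finite Kurosh rank. -/
theorem result : ∃ (G : Type) (_ : Group G), Countable G ∧ TorsionFree G ∧ MetrizablyEnded G ∧
    ¬ FiniteKuroshRank G := by
  refine ⟨Pool.Agent.R644.K.Γ, inferInstance, inferInstance, Pool.Agent.R644.K.torsionFree,
    metrizable_of_countable _ countable_almostInvariant, ?_⟩
  rintro ⟨n, K, hG, hK, ⟨e⟩⟩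
  refine Pool.Agent.R644.K.no_decomp n K (fun i => ?_) e
  rintro ⟨A, B, hA, hB, hA', hB', he⟩
  rcases (hK i).2 A B he with h | h
  · exact not_subsingleton A h
  · exact not_subsingleton B h

end Pool.Agent.Results.MP_879d44_al.KuroshGroupMetrizableEnds
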